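import Pool.Agent.LibAL48.Main

/-!
Complementation of nondeterministic exponential time: which relations between the time
exponents and the advice exponent are possible, relative to oracles and to their extensions by
polynomials over all fields of a family.

`Feas X Y a b c` (`0 < a < b`, `0 ≤ c < 1`) says that, with an arbitrarily small amount to
spare in all three exponents, the complements of all languages in `NTIME^X(2^O(n^a))` lie in
`NTIME^Y(2^O(n^b))` with `O(n^c)` bits of advice (no advice if `c = 0`).

* A relation between `a`, `b` and `c` obeys the laws listed in `Laws` if and only if it is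
  `Feas O O` for some oracle `O`, and if and only if for every family of fields there are an
  oracle `O` and an extension `ext 𝕂 O P` of it by polynomials `P` of degree at most 2 in every
  variable such that the relation is `Feas X Y` for all `X`, `Y` among these two oracles.
* For all oracles, `NEXP^Y` contains the complements of all languages in `NEXP^X` if and only if
  `Feas X Y 1 b 0` for some `b`.
-/

namespace Pool.Agent.Results.MP_6cef49_lc.AlgebrizingLaws

open Pool.Agent.LibNexp
open Pool.Agent.LibCL48 (Laws)
open Pool.Agent.LibAL48

theorem result :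
    (∀ F : ℝ → ℝ → ℝ → Prop, List.TFAE [
      Laws F,
      ∃ O : List Bool → Bool, ∀ a b c, Feas O O a b c ↔ F a b c,
      ∀ 𝕂 : Fields, ∃ (O : List Bool → Bool) (P : ∀ s n, MvPolynomial (Fin n) (𝕂.K s)),
        IsExt 𝕂 O P ∧
        ∀ X ∈ ({O, ext 𝕂 O P} : Set (List Bool → Bool)),
        ∀ Y ∈ ({O, ext 𝕂 O P} : Set (List Bool → Bool)), ∀ a b c, Feas X Y a b c ↔ F a b c]) ∧
    ∀ X Y : List Bool → Bool, (∀ L ∈ NEXPLang X, Lᶜ ∈ NEXPLang Y) ↔ ∃ b : ℝ, Feas X Y 1 b 0 :=
  main

end Pool.Agent.Results.MP_6cef49_lc.AlgebrizingLaws
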