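import Pool.Agent.LibTrade92.Main
import Pool.Agent.LibHF75.T8

/-!
Equivalent forms of the equality of nondeterministic exponential time with its complementary class.
Everything holds for every oracle `O`, in particular for the trivial one.
-/

namespace Pool.Agent.Results.MP_6cef49_lc.Equivalents

open Filter Pool.Agent.LibNexp Pool.Agent.LibNexp55 Pool.Agent.LibBHN
open Pool.Agent.LibDual85 (PQueryF)
open Pool.Agent.LibQry85 (Constr)

/-- The number of strings of length `m` in exactly one of `A`, `B`. -/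
noncomputable def err (A B : Set (List Bool)) (m : ℕ) : ℕ :=
  Nat.card {z : List Bool // z.length = m ∧ ¬ (z ∈ A ↔ z ∈ B)}

/-- The union over `c` of nondeterministic time `2 ^ (h(n) ^ c + c)` is closed under complement. -/
def Closed (O : List Bool → Bool) (h : ℕ → ℕ) : Prop :=
  ∀ L : Set (List Bool),
    (∃ c : ℕ, NTime O (fun n => 2 ^ (h n ^ c + c)) fun e : Fin 1 → List Bool => e 0 ∈ L) →
    ∃ c : ℕ, NTime O (fun n => 2 ^ (h n ^ c + c)) fun e : Fin 1 → List Bool => e 0 ∉ L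

/-- `NEE = coNEE`: doubly exponential time. -/
def NEE (O : List Bool → Bool) : Prop := Closed O fun n => 2 ^ n

/-- Complements with `s n` bits of advice, up to an additive constant. -/
def Enough (O : List Bool → Bool) (s : ℕ → ℕ) : Prop :=
  ∀ L ∈ NEXPLang O, ∃ c : ℕ, Lᶜ ∈ WithAdvice (NEXPLang O) {f | ∀ n, (f n).length ≤ s n + c}

theorem q1_of_few {O : List Bool → Bool} {ε : ℝ} (hε : 0 < ε)
    (h : ∀ L ∈ NEXPLang O, ∃ N ∈ NEXPLang O, ∀ᶠ m : ℕ in atTop,
      (2 : ℝ) ^ ((m : ℝ) ^ ε) * err Lᶜ N m ≤ 2 ^ m) : ∀ L ∈ NEXPLang O, Lᶜ ∈ NEXPLang O := by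
  set r : ℕ → ℝ := fun m => max 2 ((m : ℝ) ^ ε) with hr
  have hmono : Monotone r := fun a b hab => by
    refine max_le_max le_rfl (Real.rpow_le_rpow (Nat.cast_nonneg a) ?_ hε.le)
    exact_mod_cast hab
  have h1 : 1 < r 0 := lt_of_lt_of_le one_lt_two (le_max_left _ _)
  have key := (LibHF75.main2R hmono h1).out 0 2
  refine key.2 ?_ O fun L hL => ?_
  · obtain ⟨C, hC⟩ := exists_nat_ge (1 / ε)
    refine ⟨max C 1, fun n hn => ?_⟩
    have hn1 : (1 : ℝ) ≤ n := by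
      exact_mod_cast le_trans (le_max_right C 1) hn
    have h2 : 1 ≤ ((max C 1 : ℕ) : ℝ) * ε := by
      have h3 : 1 / ε ≤ ((max C 1 : ℕ) : ℝ) := hC.trans (by exact_mod_cast le_max_left C 1)
      rwa [div_le_iff₀ hε] at h3
    refine le_trans ?_ (le_max_right _ _)
    rw [Nat.cast_pow, ← Real.rpow_natCast, ← Real.rpow_mul (Nat.cast_nonneg n)]
    calc (n : ℝ) = (n : ℝ) ^ (1 : ℝ) := (Real.rpow_one _).symm
      _ ≤ (n : ℝ) ^ (((max C 1 : ℕ) : ℝ) * ε) := Real.rpow_le_rpow_of_exponent_le hn1 h2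
  · obtain ⟨N, hN, h2⟩ := h L hL
    refine ⟨N, hN, False.elim, ?_⟩
    have h3 : ∀ᶠ m : ℕ in atTop, (2 : ℝ) ≤ (m : ℝ) ^ ε :=
      ((tendsto_rpow_atTop hε).comp tendsto_natCast_atTop_atTop).eventually_ge_atTop 2
    filter_upwards [h2, h3] with m hm1 hm2
    have h4 : r m = (m : ℝ) ^ ε := max_eq_right hm2
    rw [h4, LibAV75.err_eq]
    exact hm1

theorem result (O : List Bool → Bool) : List.TFAE [
    ∀ L ∈ NEXPLang O, Lᶜ ∈ NEXPLang O,
    -- one adaptive or one parallel query is as good as two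
    PQuery (NEXPLang O) 1 = PQuery (NEXPLang O) 2,
    PPar (NEXPLang O) 1 = PPar (NEXPLang O) 2,
    -- languages of `P^NEXP` which depend only on the length
    ∀ L ∈ POracle (NEXPLang O),
      (∀ x y : List Bool, x.length = y.length → x ∈ L → y ∈ L) → L ∈ NEXPLang O,
    -- complements with few errors
    ∃ ε : ℝ, 0 < ε ∧ ∀ L ∈ NEXPLang O, ∃ N ∈ NEXPLang O, ∀ᶠ m : ℕ in atTop,
      (2 : ℝ) ^ ((m : ℝ) ^ ε) * err Lᶜ N m ≤ 2 ^ m,
    -- complements with errors on less than half of the strings, and with some advice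
    (∀ L ∈ NEXPLang O, ∃ N ∈ NEXPLang O, ∀ᶠ m in atTop, 2 * err Lᶜ N m < 2 ^ m) ∧
      ∃ C, Enough O fun n => C * Nat.log 2 (n + 1),
    -- doubly exponential time is closed under complement, and one small saving is possible
    NEE O ∧ ∃ C, Enough O fun n => C * Nat.log 2 (n + 1),
    NEE O ∧ ∃ C, ∀ L ∈ POracle (NEXPLang O), ∃ c : ℕ,
      L ∈ PQueryF (NEXPLang O) fun n => C * Nat.log 2 (n + 1) + c,
    NEE O ∧ ∃ m, 1 ≤ m ∧ ∀ L ∈ BH O m, Lᶜ ∈ BH O m,
    NEE O ∧ ∃ m, 1 ≤ m ∧ PPar (NEXPLang O) m = PPar (NEXPLang O) (m + 1),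
    NEE O ∧ ∃ (M : ℕ) (r : ℕ → ℕ), Constr O r ∧
      (∃ D : ℕ, ∀ n, (M + 1) * r n ≤ M * Nat.log 2 (n + 1) + D) ∧
      PQueryF (NEXPLang O) (fun n => r n + 1) = PQueryF (NEXPLang O) r,
    -- the same for other functions in place of the exponential function
    ∃ (h s : ℕ → ℕ) (K C : ℕ), StrictMono h ∧
      NEXP O (fun e : Fin 2 → List Bool => (e 1).length = h (e 0).length) ∧
      (∀ n, h (n + 1) ≤ h n ^ K + K) ∧ 1 ≤ C ∧ (∀ n, h (s n / C) ≤ n ^ C + C) ∧
      Closed O h ∧ Enough O s] := by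
  have hT := LibTrade92.log_list O
  have h0 : (∀ L ∈ BH O 1, Lᶜ ∈ BH O 1) ↔ ∀ L ∈ NEXPLang O, Lᶜ ∈ NEXPLang O := by rw [BH_one]
  have hC : NEE O ↔ ∀ L ∈ NEXPLang O, ∃ N ∈ NEXPLang O, ∀ᶠ m in atTop,
      2 * err Lᶜ N m < 2 ^ m := by
    refine (LibAV75.main4 O).symm.trans ?_
    unfold LibAV75.More err
    simp only [LibAV75.err_eq]
  have hg2 : LibDown92.Graph O fun n => 2 ^ n := LibDual85.nexp_twoPow 0 1
  have hg1 : LibDown92.Graph O id := (nexp_lin 1 0 0 1).congr fun e => by simp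
  have hsub : ∀ (M : ℕ) (r : ℕ → ℕ), Constr O r →
      (∃ D : ℕ, ∀ n, (M + 1) * r n ≤ M * Nat.log 2 (n + 1) + D) →
      PQueryF (NEXPLang O) r ⊆ PQueryF (NEXPLang O) fun n => r n + 1 := by
    rintro M r hr ⟨D, hD⟩
    have hp : PolyB r := LibQry85.polyB_of_log hD
    have hr1 : Constr O fun n => r n + 1 := by simpa using hr.lin hp 1 1
    exact LibQry85.pqueryF_up (n0 := 0) hr1 (hp.add (PolyB.const 1)) hr hp (fun n => by simp)
      fun n _ => le_rfl
  tfae_have 1 ↔ 2 := h0.symm.trans ((queries O (k := 1) le_rfl).out 4 0)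
  tfae_have 1 ↔ 3 := h0.symm.trans ((levels O (m := 1) le_rfl).out 0 5)
  tfae_have 1 ↔ 4 := LibTrade92.tally_iff O
  tfae_have 5 → 1 := fun ⟨ε, hε, h⟩ => q1_of_few hε h
  tfae_have 1 → 5 := fun h => ⟨1, one_pos, fun L hL => ⟨Lᶜ, h L hL, Eventually.of_forall
    fun m => by simp [err]⟩⟩
  tfae_have 6 ↔ 7 := by rw [hC]
  tfae_have 1 ↔ 7 := hT.out 0 1
  tfae_have 1 ↔ 8 := hT.out 0 2
  have h2 : ∀ n : ℕ, 2 ^ (n + 1) ≤ (2 ^ n) ^ 2 + 2 := fun n => by
    rw [pow_succ]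
    have : 1 ≤ 2 ^ n := Nat.one_le_two_pow
    nlinarith
  tfae_have 1 → 9 := fun h => ⟨LibTrade92.closed_of_q1 LibTrade92.strict_two hg2 h, 1, le_rfl,
    h0.2 h⟩
  tfae_have 9 → 1 := by
    rintro ⟨h, m, hm, hb⟩
    exact LibDown92.down_h LibTrade92.strict_two hg2 (K := 2) h2 h (C := 1) le_rfl
      (s := fun _ => 0) (fun n => by simp) (LibTrade92.enough_of_bh hm hb)
  tfae_have 9 ↔ 10 := and_congr_right fun _ => exists_congr fun m => and_congr_right fun hm =>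
    (levels O hm).out 0 5
  tfae_have 1 ↔ 11 := by
    refine (hT.out 0 3).trans (and_congr_right fun _ => exists_congr fun M => exists_congr fun r =>
      and_congr_right fun hr => and_congr_right fun hM => ?_)
    exact ⟨fun h => h.antisymm (hsub M r hr hM), Eq.le⟩
  tfae_have 1 → 12 := fun h => ⟨id, fun _ => 0, 1, 1, strictMono_id, hg1, fun n => by simp, le_rfl,
    fun n => by simp, LibTrade92.closed_of_q1 strictMono_id hg1 h, LibTrade92.enough_of_q1 h _⟩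
  tfae_have 12 → 1 := by
    rintro ⟨h, s, K, C, hs, hg, hK, hC1, hC2, hcl, hE⟩
    exact LibDown92.down_h hs hg hK hcl hC1 hC2 hE
  tfae_finish

end Pool.Agent.Results.MP_6cef49_lc.Equivalents
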