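import Pool.Agent.LibRO74.Main
import Pool.Agent.LibRO74.Cor
import Pool.Agent.LibRV74.G3
import Pool.Agent.LibRV74.P6

/-!
For almost every oracle: at all large lengths the complement of some language in nondeterministic
exponential time needs all but `(1 + ε) log n` bits of advice, even in doubly exponential time, and at
infinitely many lengths all but a constant number of bits; for every language in nondeterministic
exponential time `log n` bits can be saved infinitely often. With `r` fewer bits about `2 ^ r` strings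
are wrong. For another language, at all large lengths, `n / 2 - (1 + ε) log n` bits of advice leave about half of the strings wrong, even in doubly
exponential time, while `n / 2 + log n` bits leave no error.
-/

namespace Pool.Agent.Results.MP_6cef49_lc.RandomOracle

open Filter MeasureTheory Pool.Agent.LibNexp Pool.Agent.LibNexp55 Pool.Agent.LibBHN
  Pool.Agent.LibDual85

/-- The number of strings of length `m` in exactly one of `A`, `B`. -/
noncomputable def err (A B : Set (List Bool)) (m : ℕ) : ℕ :=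
  Nat.card {z : List Bool // z.length = m ∧ ¬ (z ∈ A ↔ z ∈ B)}

theorem result :
    -- for almost every oracle, i.e. for independent fair coins
    ∀ᵐ O : List Bool → Bool ∂(Measure.infinitePi fun _ : List Bool =>
      (PMF.uniformOfFintype Bool).toMeasure),
    -- a language in `NEXP`, and its complement in doubly exponential time with advice
    (∀ k : ℕ, ∃ L ∈ NEXPLang O, ∀ (c : ℕ) (B : Set (List Bool)),
      NTime O (fun n => 2 ^ (2 ^ (n ^ k + k) + c)) (fun e : Fin 1 → List Bool => e 0 ∈ B) →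
      -- at all large lengths, all but `(1 + ε) log n` bits are needed; if `r` more bits are missing,
      -- at least `2 ^ r / (1 + r) ^ 2` strings are wrong
      (∀ ε : ℝ, 0 < ε → ∀ᶠ n : ℕ in atTop, ∀ (v : List Bool) (r : ℝ), 0 ≤ r →
        (v.length : ℝ) + (1 + ε) * Real.logb 2 n + r ≤ n →
        2 ^ r / (1 + r) ^ 2 ≤ err Lᶜ {x | pair x v ∈ B} n) ∧
      -- at infinitely many lengths, all but `10` bits are needed
      ∃ᶠ n : ℕ in atTop, ∀ v : List Bool, v.length + 10 ≤ n →
        ∃ x : List Bool, x.length = n ∧ ¬ (x ∉ L ↔ pair x v ∈ B)) ∧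
    -- `log n` bits can be saved at infinitely many lengths
    (∀ L ∈ NEXPLang O, ∃ B ∈ NEXPLang O, ∃ᶠ n : ℕ in atTop, ∃ v : List Bool,
      v.length + Nat.log 2 (n + 1) ≤ n + 1 ∧
        ∀ x : List Bool, x.length = n → (x ∉ L ↔ pair x v ∈ B)) ∧
    -- a jump at all large lengths: below `n / 2 - (1 + ε) log n` bits about half of the strings are
    -- wrong (with an exponentially small advantage `(1 + r) 2 ^ (-r / 2)` if `r` bits are missing),
    -- above `n / 2 + log n` bits none
    (∀ k : ℕ, ∃ L ∈ NEXPLang O,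
      (∀ (c : ℕ) (B : Set (List Bool)),
        NTime O (fun n => 2 ^ (2 ^ (n ^ k + k) + c)) (fun e : Fin 1 → List Bool => e 0 ∈ B) →
        ∀ ε : ℝ, 0 < ε → ∀ᶠ n : ℕ in atTop, ∀ (v : List Bool) (r : ℝ), 0 ≤ r →
          (v.length : ℝ) + (1 + ε) * Real.logb 2 n + r ≤ n / 2 →
          (1 / 2 - (1 + r) * 2 ^ (-(r / 2))) * 2 ^ n ≤ err Lᶜ {x | pair x v ∈ B} n) ∧
      ∃ B ∈ NEXPLang O, ∀ᶠ n : ℕ in atTop, ∃ v : List Bool,
        (v.length : ℝ) ≤ n / 2 + Real.logb 2 n ∧
          ∀ x : List Bool, x.length = n → (x ∉ L ↔ pair x v ∈ B)) ∧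
    -- doubly exponential time is not closed under complement
    (∃ L : Set (List Bool),
      (∃ c : ℕ, NTime O (fun n => 2 ^ ((2 ^ n) ^ c + c)) fun e : Fin 1 → List Bool => e 0 ∈ L) ∧
      ∀ c : ℕ, ¬ NTime O (fun n => 2 ^ ((2 ^ n) ^ c + c)) fun e : Fin 1 → List Bool => e 0 ∉ L) ∧
    -- the Boolean hierarchy
    (∀ m, 1 ≤ m → BH O m ≠ BH O (m + 1)) ∧
    -- the hierarchy of adaptive queries
    (∀ α β : ℚ, 0 ≤ α → α < β →
      ∃ L ∈ PQueryF (NEXPLang O) (fun n => ⌊((n : ℝ) + 1) ^ (β : ℝ)⌋₊), ∀ c : ℕ,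
        L ∉ PQueryF (NEXPLang O) fun n => c * ⌊((n : ℝ) + 1) ^ (α : ℝ)⌋₊ + c) ∧
    ∀ k : ℕ, ∃ L ∈ POracle (NEXPLang O), ∀ c : ℕ,
      L ∉ PQueryF (NEXPLang O) fun n => c * n ^ k + c := by
  filter_upwards [LibRO74.main, LibRO74.upper, LibRV74.avg2, LibRV74.main2] with O hO hU hA hM
  have h3 := LibRO74.hard_of (hO 1).1 (hO 1).2
  obtain ⟨h4, h5⟩ := LibRO74.pow_fail h3
  refine ⟨fun k => ⟨_, (hM k).1, (hM k).2⟩, hU, hA, ?_, fun m hm => LibRO74.bh_infinite h3 hm,
    h4, h5⟩
  have h6 := LibRO74.not_closed h3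
  by_contra hcon
  push Not at hcon
  exact h6 hcon

end Pool.Agent.Results.MP_6cef49_lc.RandomOracle
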