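import Pool.Agent.LibSC59.Cor

/-!
One oracle relative to which nondeterministic exponential time has polynomial size circuits, but
nothing is gained for its complements: they need all but two of the bits of advice which always
suffice, up to three, even in doubly exponential time; they are not approximated; doubly
exponential time is not closed under complement; all hierarchies over nondeterministic exponential
time are infinite.
-/

namespace Pool.Agent.Results.MP_6cef49_lc.SmallCircuits

open Filter Pool.Agent.LibNexp Pool.Agent.LibNexp55 Pool.Agent.LibBHN Pool.Agent.LibDual85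

/-- The number of strings of length `m` in exactly one of `A`, `B`. -/
noncomputable def err (A B : Set (List Bool)) (m : ℕ) : ℕ :=
  Nat.card {z : List Bool // z.length = m ∧ ¬ (z ∈ A ↔ z ∈ B)}

theorem result : ∃ O : List Bool → Bool,
    -- polynomial time with polynomial advice
    (∀ L ∈ NEXPLang O, ∃ c : ℕ, L ∈ WithAdvice (POracle {{s | O s = true}})
      {f | ∀ n, (f n).length ≤ n ^ c + c}) ∧
    -- indeed one query
    (∀ L ∈ NEXPLang O, ∃ (c : ℕ) (f : ℕ → List Bool), (∀ n, (f n).length ≤ n ^ c + c) ∧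
      ∀ x, x ∈ L ↔ O (false :: pair (pair x (f x.length)) []) = true) ∧
    -- a language in `NE`, and its complement in doubly exponential time with advice
    WitLang O ∈ NELang O ∧
    (∀ (B : Set (List Bool)) (c : ℕ),
      NTime O (fun n => 2 ^ (2 ^ (n / 20) + n ^ c + c)) (fun e : Fin 1 → List Bool => e 0 ∈ B) →
      ∃ᶠ n in atTop, ∀ v : List Bool, v.length + 2 ≤ n →
        ∃ x : List Bool, x.length = n ∧ ¬ (x ∉ WitLang O ↔ pair x v ∈ B)) ∧
    -- approximation of the complements
    (∃ L ∈ NEXPLang O, ∀ N ∈ NEXPLang O, ∃ᶠ m in atTop, 2 ^ m ≤ 2 * err Lᶜ N m) ∧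
    -- doubly exponential time is not closed under complement
    (∃ L : Set (List Bool),
      (∃ c : ℕ, NTime O (fun n => 2 ^ ((2 ^ n) ^ c + c)) fun e : Fin 1 → List Bool => e 0 ∈ L) ∧
      ∀ c : ℕ, ¬ NTime O (fun n => 2 ^ ((2 ^ n) ^ c + c)) fun e : Fin 1 → List Bool => e 0 ∉ L) ∧
    -- the Boolean hierarchy
    (∀ m, 1 ≤ m → BH O m ≠ BH O (m + 1)) ∧
    -- the hierarchy of adaptive queries
    (∀ α β : ℚ, 0 ≤ α → α < β →
      ∃ L ∈ PQueryF (NEXPLang O) (fun n => ⌊((n : ℝ) + 1) ^ (β : ℝ)⌋₊), ∀ c : ℕ,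
        L ∉ PQueryF (NEXPLang O) fun n => c * ⌊((n : ℝ) + 1) ^ (α : ℝ)⌋₊ + c) ∧
    ∀ k : ℕ, ∃ L ∈ POracle (NEXPLang O), ∀ c : ℕ,
      L ∉ PQueryF (NEXPLang O) fun n => c * n ^ k + c := by
  obtain ⟨O, h1, h2⟩ := LibSC59.main
  have h3 := LibSC59.hard_of h2
  obtain ⟨h4, h5⟩ := LibSC59.pow_fail h3
  refine ⟨O, LibPP83.in_ppoly h1, h1, witLang_mem, h2, ?_, ?_,
    fun m hm => LibSC59.bh_infinite h3 hm, h4, h5⟩
  · obtain ⟨L, hL, h6⟩ := LibSC59.not_more h3
    refine ⟨L, hL, fun N hN => (h6 N hN).mono fun m hm => ?_⟩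
    rw [LibAV75.err_eq] at hm
    exact hm
  · have h6 := LibSC59.not_closed h3
    by_contra hcon
    push Not at hcon
    exact h6 hcon

end Pool.Agent.Results.MP_6cef49_lc.SmallCircuits
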